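import Mathlib
import Pool.Agent.Q316.IntroEnum

/-!
# An introenumerable set that is not finitely decomposable
-/

set_option autoImplicit false

namespace Pool.Agent.Results.MP_7321fb_lc.NotFinitelyDecomposable

/-! ### Definitions used in the statement -/

/-- `Θ(X)`.  An enumeration operator is a c.e. set `Θ` of pairs `⟨D, n⟩`; the finite sets `D` are
given by lists. -/
def app (Θ : Set (List ℕ × ℕ)) (X : Set ℕ) : Set ℕ := {n | ∃ D, (D, n) ∈ Θ ∧ ∀ y ∈ D, y ∈ X}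

/-- `A ≤_e B`. -/
def ELe (A B : Set ℕ) : Prop :=
  ∃ Θ : Set (List ℕ × ℕ), REPred (fun p => p ∈ Θ) ∧ app Θ B = A

/-- `A` is introenumerable. -/
def Introenumerable (A : Set ℕ) : Prop :=
  A.Infinite ∧ ∀ C ⊆ A, C.Infinite → ELe A C

/-- `A ≤^{ui}_e B`: one enumeration operator maps all infinite subsets of `B` to `A`. -/
def UILe (A B : Set ℕ) : Prop :=
  ∃ Θ : Set (List ℕ × ℕ), REPred (fun p => p ∈ Θ) ∧ ∀ C ⊆ B, C.Infinite → app Θ C = A

/-- `A` is finitely decomposable. -/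
def FinitelyDecomposable (A : Set ℕ) : Prop :=
  ∃ (n : ℕ) (B : Fin (n + 1) → Set ℕ), A = ⋃ i, B i ∧ ∀ i, UILe A (B i)

/-- **There is an introenumerable set which is not finitely decomposable.** -/
theorem result : ∃ A : Set ℕ, Introenumerable A ∧ ¬ FinitelyDecomposable A := by
  classical
  obtain ⟨κ, hκ⟩ := Pool.Agent.Q316.Intro.exists_kappa
  refine ⟨Pool.Agent.Q316.Intro.A κ, ⟨Pool.Agent.Q316.Intro.el_infinite κ, fun C hC hi =>
    Pool.Agent.Q316.Intro.introenumerable_A hC hi⟩, ?_⟩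
  rintro ⟨n, B, hA, hB⟩
  choose Θ hΘ hB using hB
  choose Φ hΦ h using fun i => Pool.Agent.Q316.Intro.computes_of_eop (κ := κ) (hΘ i)
    (𝒞 := {C | C ⊆ B i ∧ C.Infinite}) fun C hC => hB i C hC.1 hC.2
  obtain ⟨e, -, M, hM, hgood⟩ := hκ (n + 1) Φ hΦ 0
  -- one of the pieces contains infinitely many elements of the column `e` with length in `M`
  have h1 : ∃ i, {m | m ∈ M ∧ e < m ∧ Pool.Agent.Q316.Intro.el κ e m ∈ B i}.Infinite := by
    by_contra hcon
    push Not at hcon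
    have h2 : (⋃ i, {m | m ∈ M ∧ e < m ∧ Pool.Agent.Q316.Intro.el κ e m ∈ B i}).Finite :=
      Set.finite_iUnion fun i => hcon i
    refine hM ((h2.union (Set.finite_Iic e)).subset fun m hm => ?_)
    by_cases hme : e < m
    · left
      have : Pool.Agent.Q316.Intro.el κ e m ∈ Pool.Agent.Q316.Intro.A κ := ⟨e, m, hme, rfl⟩
      rw [hA] at this
      obtain ⟨i, hi⟩ := Set.mem_iUnion.1 this
      exact Set.mem_iUnion.2 ⟨i, hm, hme, hi⟩
    · right; exact not_lt.1 hme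
  obtain ⟨i, hi⟩ := h1
  set D := {m | m ∈ M ∧ e < m ∧ Pool.Agent.Q316.Intro.el κ e m ∈ B i} with hD
  have h2 : Pool.Agent.Q316.Intro.col κ e D ⊆ B i := by
    rintro x ⟨m, hm, -, rfl⟩
    exact hm.2.2
  refine hgood D (fun m hm => hm.1) hi i ?_
  refine Pool.Agent.Q316.Intro.ans_of_computes
    (h i _ ⟨h2, Pool.Agent.Q316.Intro.col_infinite hi⟩) subset_rfl ?_
  refine ⟨Pool.Agent.Q316.Intro.el κ (e + 1) (e + 2), ⟨e + 1, e + 2, by omega, rfl⟩, ?_⟩
  rw [Pool.Agent.Q316.Intro.rev_el]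
  simp

end Pool.Agent.Results.MP_7321fb_lc.NotFinitelyDecomposable
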